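import Pool.Agent.H57.CM.Targets

/-! Row SHO of the board chm (helper53). -/

set_option autoImplicit false

namespace Pool.Agent.H53.CM

open Pool.Agent.H68.BP Pool.Agent.H58.SF Pool.Agent.H53.NR
open Pool.Agent.H53.GC (strOn sigOf)
open Pool.Agent.H57.AR (tp ty Ty)
open Pool.Agent.H57.LH (Hmg)
open Pool.Agent.H72.CH Pool.Agent.H57.CM
open Function

theorem sho_le {D : Type} [LinearOrder D] [AddCommMonoid D] [DM D] (c a : D) : c ≤ c + a := by
  have h := DM.mono (0 : D) a c (DM.zero_le a)
  rwa [zero_add, add_comm] at h

theorem sho_mono {D : Type} [LinearOrder D] [AddCommMonoid D] [DM D] (c : D) {a b : D}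
    (h : a ≤ b) : c + a ≤ c + b := by
  have h := DM.mono a b c h
  rwa [add_comm a, add_comm b] at h

theorem sho_card {D : Type} [LinearOrder D] [AddCommMonoid D] [DM D] {c c' : D} (h : c < c') :
    Nat.card {v : D // c' < v} + 1 ≤ Nat.card {v : D // c < v} := by
  have : Finite D := DM.fin
  have h1 : Nat.card {v : D // c' < v} = ({v : D | c' < v}).ncard := rfl
  have h2 : Nat.card {v : D // c < v} = ({v : D | c < v}).ncard := rfl
  rw [h1, h2, Nat.succ_le_iff]
  apply Set.ncard_lt_ncard _ (Set.toFinite _)
  constructor
  · intro v hv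
    exact h.trans hv
  · intro hsub
    exact lt_irrefl c' (hsub (show c < c' from h))

theorem sho_aux {D X : Type} [LinearOrder D] [AddCommMonoid D] [DM D] (w : X → X → D)
    (htr : ∀ (c : D) (x y z : X), c + w x y = c → c + w y z = c → c + w x z = c) :
    ∀ (n : ℕ) (l : List X), l.length ≤ n → ∀ (c : D) (x : X), ∃ l' : List X,
      l'.length ≤ 2 * Nat.card {v : D // c < v} + 1 ∧
      (x :: l').getLast? = (x :: l).getLast? ∧ c + len w x l' ≤ c + len w x l := by
  intro n
  induction n with
  | zero =>
    intro l hl c x
    have h0 : l = [] := List.length_eq_zero_iff.1 (by omega)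
    subst h0
    exact ⟨[], by simp, rfl, le_rfl⟩
  | succ n ih =>
    intro l hl c x
    match l, hl with
    | [], _ => exact ⟨[], by simp, rfl, le_rfl⟩
    | [y], _ => exact ⟨[y], by simp, rfl, le_rfl⟩
    | y :: z :: l2, hl =>
      simp only [List.length_cons] at hl
      have hlen : len w x (y :: z :: l2) = w x y + (w y z + len w z l2) := rfl
      by_cases h1 : c + w x y = c
      · by_cases h2 : c + w y z = c
        · have h3 := htr c x y z h1 h2
          obtain ⟨l', e1, e2, e3⟩ := ih (z :: l2) (by simp; omega) c x
          refine ⟨l', e1, ?_, ?_⟩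
          · rw [e2, List.getLast?_cons_cons, List.getLast?_cons_cons, List.getLast?_cons_cons]
          · refine e3.trans (le_of_eq ?_)
            have h4 : len w x (z :: l2) = w x z + len w z l2 := rfl
            rw [hlen, h4, ← add_assoc, h3, ← add_assoc, h1, ← add_assoc, h2]
        · have h3 : c < c + w y z := lt_of_le_of_ne (sho_le c _) (Ne.symm h2)
          obtain ⟨l', e1, e2, e3⟩ := ih l2 (by omega) (c + w y z) z
          refine ⟨y :: z :: l', ?_, ?_, ?_⟩
          · have := sho_card h3
            simp only [List.length_cons]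
            omega
          · rw [List.getLast?_cons_cons, List.getLast?_cons_cons, e2, List.getLast?_cons_cons,
              List.getLast?_cons_cons]
          · have h4 : len w x (y :: z :: l') = w x y + (w y z + len w z l') := rfl
            rw [hlen, h4, ← add_assoc, h1, ← add_assoc, ← add_assoc c (w x y), h1, ← add_assoc]
            exact e3
      · have h3 : c < c + w x y := lt_of_le_of_ne (sho_le c _) (Ne.symm h1)
        obtain ⟨l', e1, e2, e3⟩ := ih (z :: l2) (by simp; omega) (c + w x y) y
        refine ⟨y :: l', ?_, ?_, ?_⟩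
        · have := sho_card h3
          simp only [List.length_cons]
          omega
        · rw [List.getLast?_cons_cons, e2]
          exact (List.getLast?_cons_cons).symm
        · have h4 : len w x (y :: l') = w x y + len w y l' := rfl
          have h5 : len w x (y :: z :: l2) = w x y + len w y (z :: l2) := rfl
          rw [h4, h5, ← add_assoc, ← add_assoc]
          exact e3

theorem pf_SHO : T_SHO := by
  intro D X _ _ _ w lam s hP hidem hs hw1 hw2 habs x l
  have : Finite D := DM.fin
  have htr : ∀ (c : D) (x y z : X), c + w x y = c → c + w y z = c → c + w x z = c := by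
    intro c x y z h1 h2
    obtain ⟨i, hi, hi1, hi2⟩ := habs (w x y)
    obtain ⟨j, hj, hj1, hj2⟩ := habs (w y z)
    have h3 := hw2 i hi x y hi1
    have h4 := hw2 j hj y z hj1
    have h5 : min i j ≤ lam x z := (min_le_min h3 h4).trans (hP.ult x y z)
    have h6 : w x z ≤ s (min i j) := (hw1 x z).trans (hs _ _ h5 (hP.le x z))
    have h7 : c + s (min i j) = c := by
      rcases min_choice i j with h | h
      · rw [h]; exact hi2 c h1
      · rw [h]; exact hj2 c h2
    exact le_antisymm ((sho_mono c h6).trans (le_of_eq h7)) (sho_le c _)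
  obtain ⟨l', e1, e2, e3⟩ := sho_aux w htr l.length l le_rfl 0 x
  refine ⟨l', ?_, e2, by simpa using e3⟩
  have h1 : Nat.card {v : D // (0 : D) < v} ≤ Nat.card D :=
    Nat.card_le_card_of_injective (fun v => v.1) Subtype.val_injective
  omega

end Pool.Agent.H53.CM
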